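import Mathlib
import Pool.Agent.helper35.DR.SpecK

/-!
# Project dr (MP_baa4d7_al): KCB, coboundaries are in `Kc N`
-/

set_option autoImplicit false

namespace Pool.Agent.DR

open Pool.Agent.helper58.DC Pool.Agent.DI

theorem KCB : KCB_stmt := by
  intro Q _ N _ c hc
  refine ⟨⟨fun x y z => ?_, fun x => ?_, fun x => ?_⟩, c, fun n _ n' _ => ?_, fun q n _ => ?_⟩
  · simp only
    have e : x * y * z = x * (y * z) := mul_assoc x y z
    rw [e]
    calc c x * c y * (c (x * y))⁻¹ * (c (x * y) * c z * (c (x * (y * z)))⁻¹)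
        = c x * c y * c z * (c (x * (y * z)))⁻¹ * ((c (x * y))⁻¹ * c (x * y)) := by
          ac_rfl
      _ = c x * c y * c z * (c (x * (y * z)))⁻¹ * ((c (y * z))⁻¹ * c (y * z)) := by
          rw [inv_mul_cancel, inv_mul_cancel]
      _ = _ := by ac_rfl
  · simp only
    rw [one_mul, hc, one_mul, mul_inv_cancel]
  · simp only
    rw [mul_one, hc, mul_one, mul_inv_cancel]
  · rw [inv_mul_cancel_right]
  · unfold tw
    simp only
    generalize c (q * n * q⁻¹) = t
    rw [inv_mul_cancel_right]
    generalize c (q * n) = s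
    generalize c q = r
    generalize c n = w
    refine Units.ext ?_
    have h1 : (t : ℂ) ≠ 0 := t.ne_zero
    have h2 : (s : ℂ) ≠ 0 := s.ne_zero
    have h3 : (r : ℂ) ≠ 0 := r.ne_zero
    push_cast
    field_simp

end Pool.Agent.DR
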