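import Mathlib
import Pool.Agent.helper35.DR.SpecK
import Pool.Agent.helper49.DC.Box

/-!
# Project dr (MP_baa4d7_al): KLN, linear characters and the case of the trivial cocycle
-/

set_option autoImplicit false

namespace Pool.Agent.DR

open Pool.Agent.helper58.DC Pool.Agent.DI

theorem KLN_card {Q : Type} [Group Q] [Finite Q] (N : Subgroup Q) :
    ∑ᶠ _n ∈ (N : Set Q), (1 : ℂ) = Nat.card N := by
  rw [← finsum_set_coe_eq_finsum_mem]
  have := Fintype.ofFinite N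
  have h : ∑ᶠ _n : (N : Set Q), (1 : ℂ) = ∑ᶠ _n : N, (1 : ℂ) := rfl
  rw [h, finsum_eq_sum_of_fintype, Finset.sum_const, Finset.card_univ, nsmul_eq_mul, mul_one,
    Nat.card_eq_fintype_card]

theorem KLN_lin {Q : Type} [Group Q] [Finite Q] (N : Subgroup Q) (β : Q → Q → ℂˣ)
    (hβ : β ∈ Coc Q) (b : Q → ℂˣ) (hb : ∀ n ∈ N, ∀ n' ∈ N, b n * b n' = β n n' * b (n * n'))
    (σ : Q → ℂ) (h1 : ∀ n ∈ N, σ n = b n) (h2 : ∀ n, n ∉ N → σ n = 0) : PIrr N β σ 1 := by
  have hb1 : b 1 = 1 := by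
    have h3 := hb 1 N.one_mem 1 N.one_mem
    rw [hβ.2.1 1, one_mul, mul_one] at h3
    exact mul_eq_left.mp h3
  refine ⟨h2, ⟨ℂ, inferInstance, inferInstance, inferInstance,
    fun n => (b n : ℂ) • (1 : Module.End ℂ ℂ), ?_, fun n hn n' hn' => ?_,
    Module.finrank_self ℂ, fun n hn => ?_⟩, ?_⟩
  · simp only
    rw [hb1, Units.val_one, one_smul]
  · simp only
    rw [smul_mul_smul_comm, mul_one, smul_smul, ← Units.val_mul, ← Units.val_mul, hb n hn n' hn']
  · rw [map_smul, LinearMap.trace_one, Module.finrank_self, Nat.cast_one, smul_eq_mul, mul_one,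
      h1 n hn]
  · rw [← KLN_card N]
    refine finsum_mem_congr rfl fun n hn => ?_
    have hn' : n ∈ N := hn
    rw [h1 n hn', h1 n⁻¹ (N.inv_mem hn')]
    have e1 : (b n : ℂ) * (b n⁻¹ : ℂ) = (β n n⁻¹ : ℂ) := by
      have := hb n hn' n⁻¹ (N.inv_mem hn')
      rw [mul_inv_cancel, hb1, mul_one] at this
      rw [← Units.val_mul, this]
    rw [e1, mul_inv_cancel₀ (Units.ne_zero _)]

theorem KLN_irr {Q : Type} [Group Q] [Finite Q] (N : Subgroup Q) (σ : Q → ℂ) (k : ℕ)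
    (h : PIrr N 1 σ k) : σ ∈ IrrOn N ∧ σ 1 = k := by
  obtain ⟨V, i1, i2, i3, S, h1, h2, h3, h4⟩ := h.rep
  let ρ : Representation ℂ N V :=
    { toFun := fun n => S n
      map_one' := h1
      map_mul' := fun n n' => by
        have h5 := h2 n n.2 n' n'.2
        rw [Pi.one_apply, Pi.one_apply, Units.val_one, one_smul] at h5
        exact h5.symm }
  have hc : ∀ n : N, ρ.character n = σ n := fun n => (h4 n n.2).symm
  refine ⟨⟨h.off, V, i1, i2, i3, ρ, ?_, funext fun n => hc n⟩, ?_⟩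
  · refine Pool.Agent.helper49.DC.irr_of_norm ρ ?_
    rw [← h.norm, ← finsum_set_coe_eq_finsum_mem]
    refine finsum_congr fun n => ?_
    rw [hc, hc, Pi.one_apply, Pi.one_apply, Units.val_one, inv_one, mul_one]
    rfl
  · rw [h4 1 N.one_mem, h1, LinearMap.trace_one, h3]

open Classical in
theorem KLN_back (hB1 : B1_stmt) {Q : Type} [Group Q] [Finite Q] (N : Subgroup Q) (σ : Q → ℂ)
    (h : σ ∈ IrrOn N) : ∃ k : ℕ, PIrr N 1 σ k := by
  obtain ⟨hoff, hirr⟩ := h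
  have horth := ((hB1 N).2 _ hirr).2.2.2 _ hirr
  rw [if_pos rfl] at horth
  obtain ⟨V, i1, i2, i3, ρ, hρ, hχ⟩ := hirr
  have hc : ∀ n : N, ρ.character n = σ n := fun n => congrFun hχ n
  refine ⟨Module.finrank ℂ V, hoff, ⟨V, i1, i2, i3,
    fun n => if hn : n ∈ N then ρ ⟨n, hn⟩ else 1, ?_, fun n hn n' hn' => ?_, rfl, fun n hn => ?_⟩, ?_⟩
  · simp only
    rw [dif_pos N.one_mem]
    exact map_one ρ
  · simp only
    rw [dif_pos hn, dif_pos hn', dif_pos (N.mul_mem hn hn'), ← map_mul, Pi.one_apply, Pi.one_apply,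
      Units.val_one, one_smul]
    rfl
  · simp only
    rw [dif_pos hn, ← hc ⟨n, hn⟩]
    rfl
  · rw [← horth, ← finsum_set_coe_eq_finsum_mem]
    refine finsum_congr fun n => ?_
    rw [Pi.one_apply, Pi.one_apply, Units.val_one, inv_one, mul_one]
    rfl

theorem KLN (hB1 : B1_stmt) (hB2 : B2_stmt) : KLN_stmt := by
  intro Q _ _ N hN
  refine ⟨fun β hβ b hb σ h1 h2 => KLN_lin N β hβ b hb σ h1 h2, fun P hP => ?_,
    fun σ k h => KLN_irr N σ k h, fun σ h => KLN_back hB1 N σ h⟩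
  classical
  let τ : Q → ℂ := fun n => if n ∈ N then 1 else 0
  have hτ : PIrr N 1 τ 1 := by
    refine KLN_lin N 1 (one_mem _) (fun _ => 1) (fun n _ n' _ => ?_) τ (fun n hn => ?_)
      (fun n hn => ?_)
    · rw [Pi.one_apply, Pi.one_apply, one_mul]
    · simp only [τ]
      rw [if_pos hn, Units.val_one]
    · simp only [τ]
      rw [if_neg hn]
  have hinv : PInv N 1 τ := by
    intro q n hn
    simp only [τ]
    rw [if_pos hn, if_pos (hN.conj_mem n hn q)]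
    unfold tw
    simp
  have hfin : Finite {σ : Q → ℂ // ∃ k, PIrr N 1 σ k ∧ P k ∧ PInv N 1 σ} := by
    refine Set.Finite.to_subtype (s := {σ : Q → ℂ | ∃ k, PIrr N 1 σ k ∧ P k ∧ PInv N 1 σ})
      ((hB2 Q N).1.subset ?_)
    rintro σ ⟨k, h1, -, -⟩
    exact (KLN_irr N σ k h1).1
  unfold GN
  have : Nonempty {σ : Q → ℂ // ∃ k, PIrr N 1 σ k ∧ P k ∧ PInv N 1 σ} :=
    ⟨⟨τ, 1, hτ, hP, hinv⟩⟩
  exact Nat.card_pos

end Pool.Agent.DR
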