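import Mathlib
import Pool.Agent.helper35.DR.SpecK

/-!
# Project dr (MP_baa4d7_al): KML, multiplication by an invariant one-dimensional representation
-/

set_option autoImplicit false

namespace Pool.Agent.DR

open Pool.Agent.helper58.DC Pool.Agent.DI

section

variable {Q : Type} [Group Q]

open Classical in
/-- multiplication by `b` on `N`. -/
noncomputable def KML_f (N : Subgroup Q) (b : Q → ℂˣ) (σ : Q → ℂ) : Q → ℂ :=
  fun n => if n ∈ N then (b n : ℂ) * σ n else 0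

theorem KML_f_mem (N : Subgroup Q) (b : Q → ℂˣ) (σ : Q → ℂ) {n : Q} (hn : n ∈ N) :
    KML_f N b σ n = (b n : ℂ) * σ n := by
  unfold KML_f
  rw [if_pos hn]

theorem KML_f_off (N : Subgroup Q) (b : Q → ℂˣ) (σ : Q → ℂ) {n : Q} (hn : n ∉ N) :
    KML_f N b σ n = 0 := by
  unfold KML_f
  rw [if_neg hn]

/-- the conditions on `b`. -/
def KML_B (N : Subgroup Q) (κ : Q → Q → ℂˣ) (b : Q → ℂˣ) : Prop :=
  (∀ n ∈ N, ∀ n' ∈ N, b n * b n' = κ n n' * b (n * n')) ∧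
    ∀ q, ∀ n ∈ N, b n = tw κ q n * b (q * n * q⁻¹)

theorem KML_one {N : Subgroup Q} {κ : Q → Q → ℂˣ} (hκ : κ ∈ Coc Q) {b : Q → ℂˣ}
    (h : KML_B N κ b) : b 1 = 1 := by
  have h1 := h.1 1 N.one_mem 1 N.one_mem
  rw [hκ.2.1 1, one_mul, mul_one] at h1
  exact mul_eq_left.mp h1

theorem KML_irr {N : Subgroup Q} {β κ : Q → Q → ℂˣ} (hκ : κ ∈ Coc Q) {b : Q → ℂˣ}
    (h : KML_B N κ b) {σ : Q → ℂ} {k : ℕ} (hσ : PIrr N β σ k) :
    PIrr N (β * κ) (KML_f N b σ) k := by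
  have hb1 := KML_one hκ h
  refine ⟨fun n hn => KML_f_off N b σ hn, ?_, ?_⟩
  · obtain ⟨V, i1, i2, i3, S, h1, h2, h3, h4⟩ := hσ.rep
    refine ⟨V, i1, i2, i3, fun n => (b n : ℂ) • S n, ?_, fun n hn n' hn' => ?_, h3, fun n hn => ?_⟩
    · simp only
      rw [hb1, h1, Units.val_one, one_smul]
    · simp only [Pi.mul_apply]
      rw [smul_mul_smul_comm, h2 n hn n' hn', smul_smul, smul_smul]
      congr 1
      rw [← Units.val_mul, ← Units.val_mul, ← Units.val_mul, h.1 n hn n' hn']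
      congr 1
      ac_rfl
    · rw [KML_f_mem N b σ hn, h4 n hn, map_smul, smul_eq_mul]
  · rw [← hσ.norm]
    refine finsum_mem_congr rfl fun n hn => ?_
    have hn' : n ∈ N := hn
    rw [KML_f_mem N b σ hn', KML_f_mem N b σ (N.inv_mem hn')]
    have e1 : (b n : ℂ) * (b n⁻¹ : ℂ) = (κ n n⁻¹ : ℂ) := by
      have := h.1 n hn' n⁻¹ (N.inv_mem hn')
      rw [mul_inv_cancel, hb1, mul_one] at this
      rw [← Units.val_mul, this]
    have e2 : ((κ n n⁻¹ : ℂˣ) : ℂ) ≠ 0 := Units.ne_zero _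
    have e3 : ((β n n⁻¹ : ℂˣ) : ℂ) ≠ 0 := Units.ne_zero _
    simp only [Pi.mul_apply, Units.val_mul]
    calc (b n : ℂ) * σ n * ((b n⁻¹ : ℂ) * σ n⁻¹) * (((β n n⁻¹ : ℂˣ) : ℂ) * (κ n n⁻¹ : ℂˣ))⁻¹
        = ((b n : ℂ) * (b n⁻¹ : ℂ)) * (σ n * σ n⁻¹) *
          (((β n n⁻¹ : ℂˣ) : ℂ) * (κ n n⁻¹ : ℂˣ))⁻¹ := by ring
      _ = _ := by
          rw [e1]
          field_simp

theorem KML_inv {N : Subgroup Q} (hN : N.Normal) {β κ : Q → Q → ℂˣ} {b : Q → ℂˣ}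
    (h : KML_B N κ b) {σ : Q → ℂ} (hσ : PInv N β σ) : PInv N (β * κ) (KML_f N b σ) := by
  intro q n hn
  rw [KML_f_mem N b σ hn, KML_f_mem N b σ (hN.conj_mem n hn q), tw_mul, hσ q n hn, Units.val_mul]
  have e1 : (b n : ℂ) = ((tw κ q n : ℂˣ) : ℂ) * (b (q * n * q⁻¹) : ℂ) := by
    rw [← Units.val_mul, ← h.2 q n hn]
  rw [e1]
  ring

theorem KML_inverse {N : Subgroup Q} {κ : Q → Q → ℂˣ} {b : Q → ℂˣ} (h : KML_B N κ b) :
    KML_B N κ⁻¹ b⁻¹ := by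
  refine ⟨fun n hn n' hn' => ?_, fun q n hn => ?_⟩
  · simp only [Pi.inv_apply]
    rw [← mul_inv, ← mul_inv, h.1 n hn n' hn']
  · simp only [Pi.inv_apply]
    rw [tw_inv, ← mul_inv, ← h.2 q n hn]

theorem KML_cancel {N : Subgroup Q} {b : Q → ℂˣ} {σ : Q → ℂ} (hσ : ∀ n, n ∉ N → σ n = 0) :
    KML_f N b⁻¹ (KML_f N b σ) = σ := by
  funext n
  by_cases hn : n ∈ N
  · rw [KML_f_mem N _ _ hn, KML_f_mem N _ _ hn, Pi.inv_apply, Units.inv_mul_cancel_left]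
  · rw [KML_f_off N _ _ hn, hσ n hn]

theorem KML_cancel' {N : Subgroup Q} {b : Q → ℂˣ} {σ : Q → ℂ} (hσ : ∀ n, n ∉ N → σ n = 0) :
    KML_f N b (KML_f N b⁻¹ σ) = σ := by
  have h := KML_cancel (b := b⁻¹) hσ
  rwa [inv_inv] at h

end

theorem KML : KML_stmt := by
  rintro Q _ N hN β κ ⟨hκ, b, hb1, hb2⟩ P
  have hB : KML_B N κ b := ⟨hb1, hb2⟩
  have hB' := KML_inverse hB
  have hκ' : κ⁻¹ ∈ Coc Q := inv_mem hκ
  unfold GN
  refine Nat.card_congr (Equiv.symm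
    { toFun := fun σ => ⟨KML_f N b σ.1, ?_⟩
      invFun := fun σ => ⟨KML_f N b⁻¹ σ.1, ?_⟩
      left_inv := fun σ => ?_
      right_inv := fun σ => ?_ })
  · obtain ⟨k, h1, h2, h3⟩ := σ.2
    exact ⟨k, KML_irr hκ hB h1, h2, KML_inv hN hB h3⟩
  · obtain ⟨k, h1, h2, h3⟩ := σ.2
    have e : β * κ * κ⁻¹ = β := mul_inv_cancel_right β κ
    have h4 := KML_irr hκ' hB' h1
    have h5 := KML_inv hN hB' h3
    rw [e] at h4 h5
    exact ⟨k, h4, h2, h5⟩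
  · obtain ⟨k, h1, h2, h3⟩ := σ.2
    exact Subtype.ext (KML_cancel h1.off)
  · obtain ⟨k, h1, h2, h3⟩ := σ.2
    exact Subtype.ext (KML_cancel' h1.off)

end Pool.Agent.DR
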