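import Mathlib
import Pool.Agent.helper35.DR.SpecZ

/-!
# Project dr (MP_baa4d7_al): ZGN, the numbers for the preimage of an `r`-group in the cover
-/

set_option autoImplicit false

namespace Pool.Agent.DR

open Pool.Agent.helper58.DC Pool.Agent.DI

theorem ZGN (hZFN : ZFN_stmt) (hZKC : ZKC_stmt) (hKML : KML_stmt) (hKLN : KLN_stmt)
    (hB2 : B2_stmt) : ZGN_stmt := by
  intro p _ A _ _ N hN r hr hrp hNr α hα j
  have hp : p.Prime := Fact.out
  have : Fact r.Prime := ⟨hr⟩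
  set n : ℕ := r ^ padicValNat r (Nat.card A) with hn
  have hn1 : 1 ≤ n := Nat.one_le_pow _ _ hr.pos
  obtain ⟨-, -, hfin, -, -, -, hZr, hcard, -, -⟩ := hZFN A n hn1
  obtain ⟨i, hi⟩ := hZr r hr ⟨_, hn⟩
  obtain ⟨m, hm⟩ := (IsPGroup.iff_card).mp hNr
  have hcN : Nat.card (N.comap (prC A n)) = r ^ (m + i) := by
    rw [hcard N, hm, hi, pow_add]
  have hnd : ¬ p ∣ Nat.card (N.comap (prC A n)) := by
    rw [hcN]
    intro h
    exact hrp ((Nat.prime_dvd_prime_iff_eq hp hr).mp (hp.dvd_of_dvd_pow h)).symm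
  have hNh : (N.comap (prC A n)).Normal := hN.comap _
  have hK : (fun x y : Cv A n => α x.a y.a)⁻¹ ∈ Kc (N.comap (prC A n)) :=
    inv_mem (hZKC A N hN r hr hNr α hα)
  have hdeg : ∀ (σ : Cv A n → ℂ) (k : ℕ), PIrr (N.comap (prC A n)) 1 σ k → padicValNat p k = 0 := by
    intro σ k h
    obtain ⟨hσ, h1⟩ := (hKLN (Cv A n) (N.comap (prC A n)) hNh).2.2.1 σ k h
    obtain ⟨l, -, hl1, hl2⟩ := ((hB2 (Cv A n) (N.comap (prC A n))).2 σ hσ).1
    have e : k = l := by
      have h2 : (k : ℂ) = l := h1.symm.trans hl1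
      exact_mod_cast h2
    refine padicValNat.eq_zero_of_not_dvd fun h3 => hnd ?_
    exact (e ▸ h3).trans hl2
  have key : ∀ P : ℕ → Prop, GN (N.comap (prC A n)) (fun x y : Cv A n => α x.a y.a)⁻¹ P =
      GN (N.comap (prC A n)) 1 P := by
    intro P
    have h := hKML (Cv A n) (N.comap (prC A n)) hNh 1 _ hK P
    rwa [one_mul] at h
  refine ⟨fun hj => ?_, fun hj => ?_⟩
  · rw [key]
    unfold GN
    congr 1
    have e : (fun σ : Cv A n → ℂ => ∃ k, PIrr (N.comap (prC A n)) 1 σ k ∧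
        (padicValNat p k : ℤ) = j ∧ PInv (N.comap (prC A n)) 1 σ) =
        fun σ : Cv A n → ℂ => ∃ k, PIrr (N.comap (prC A n)) 1 σ k ∧ True ∧
          PInv (N.comap (prC A n)) 1 σ := by
      funext σ
      refine propext ⟨?_, ?_⟩
      · rintro ⟨k, h1, -, h3⟩
        exact ⟨k, h1, trivial, h3⟩
      · rintro ⟨k, h1, -, h3⟩
        refine ⟨k, h1, ?_, h3⟩
        rw [hdeg σ k h1, hj]
        rfl
    exact congrArg Subtype e
  · rw [key]
    unfold GN
    have : IsEmpty {σ : Cv A n → ℂ // ∃ k, PIrr (N.comap (prC A n)) 1 σ k ∧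
        (padicValNat p k : ℤ) = j ∧ PInv (N.comap (prC A n)) 1 σ} := by
      refine ⟨fun σ => ?_⟩
      obtain ⟨k, h1, h2, -⟩ := σ.2
      rw [hdeg σ.1 k h1] at h2
      exact hj h2.symm
    exact Nat.card_of_isEmpty

end Pool.Agent.DR
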